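import Mathlib
import Pool.Agent.H165R3.BPE

/-!
# The superadditive ergodic theorem for linearly bounded processes
-/

set_option autoImplicit false

namespace Pool.Agent.J6H73.PG

open Set Filter Topology MeasureTheory

variable {B : Type*} [MeasurableSpace B]

/-- a linearly bounded superadditive process over `T` -/
structure Super (T : B → B) (f : ℕ → B → ℝ) (C : ℝ) : Prop where
  meas : ∀ n, Measurable (f n)
  bound : ∀ n x, |f n x| ≤ C * n
  sup : ∀ m k, 1 ≤ m → 1 ≤ k → ∀ x, f m x + f k (T^[m] x) ≤ f (m + k) x

/-- the normalised process -/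
noncomputable def nf (f : ℕ → B → ℝ) (n : ℕ) (x : B) : ℝ := f n x / n

variable {T : B → B} {f : ℕ → B → ℝ} {C : ℝ}

lemma Super.C_nonneg (h : Super T f C) (x : B) : 0 ≤ C := by
  have := h.bound 1 x
  simp only [Nat.cast_one, mul_one] at this
  exact (abs_nonneg _).trans this

lemma Super.nf_bound (h : Super T f C) (n : ℕ) (x : B) : |nf f n x| ≤ C := by
  have hC := h.C_nonneg x
  unfold nf
  rcases Nat.eq_zero_or_pos n with rfl | hn
  · simpa using hC
  · have hn' : (0 : ℝ) < n := by exact_mod_cast hn
    rw [abs_div, abs_of_pos hn', div_le_iff₀ hn']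
    exact h.bound n x

/-- upper limit -/
noncomputable def up (f : ℕ → B → ℝ) (x : B) : ℝ := limsup (fun n => nf f n x) atTop

/-- lower limit -/
noncomputable def lo (f : ℕ → B → ℝ) (x : B) : ℝ := liminf (fun n => nf f n x) atTop

lemma Super.bdd_above (h : Super T f C) (x : B) :
    IsBoundedUnder (· ≤ ·) atTop (fun n => nf f n x) :=
  ⟨C, by
    rw [eventually_map]
    exact Eventually.of_forall fun n => (abs_le.mp (h.nf_bound n x)).2⟩

lemma Super.bdd_below (h : Super T f C) (x : B) :
    IsBoundedUnder (· ≥ ·) atTop (fun n => nf f n x) :=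
  ⟨-C, by
    rw [eventually_map]
    exact Eventually.of_forall fun n => (abs_le.mp (h.nf_bound n x)).1⟩

lemma Super.up_meas (h : Super T f C) : Measurable (up f) := by
  refine Measurable.limsup fun n => ?_
  exact (h.meas n).div_const _

lemma Super.lo_meas (h : Super T f C) : Measurable (lo f) := by
  refine Measurable.liminf fun n => ?_
  exact (h.meas n).div_const _

lemma Super.up_le (h : Super T f C) (x : B) : up f x ≤ C := by
  refine limsup_le_of_le (h.bdd_below x).isCoboundedUnder_le ?_
  exact Eventually.of_forall fun n => (abs_le.mp (h.nf_bound n x)).2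

lemma Super.le_lo (h : Super T f C) (x : B) : -C ≤ lo f x := by
  refine le_liminf_of_le (h.bdd_above x).isCoboundedUnder_ge ?_
  exact Eventually.of_forall fun n => (abs_le.mp (h.nf_bound n x)).1

lemma Super.lo_le_up (h : Super T f C) (x : B) : lo f x ≤ up f x :=
  liminf_le_limsup (h.bdd_above x) (h.bdd_below x)

lemma Super.up_abs (h : Super T f C) (x : B) : |up f x| ≤ C :=
  abs_le.mpr ⟨(h.le_lo x).trans (h.lo_le_up x), h.up_le x⟩

lemma Super.lo_abs (h : Super T f C) (x : B) : |lo f x| ≤ C :=
  abs_le.mpr ⟨h.le_lo x, (h.lo_le_up x).trans (h.up_le x)⟩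

/-- the upper limit does not increase along the orbit -/
lemma Super.up_comp (h : Super T f C) (x : B) : up f (T x) ≤ up f x := by
  refine le_of_forall_pos_le_add fun ε hε => ?_
  -- frequently `nf n (T x) > up (T x) - ε/2`
  have hC := h.C_nonneg x
  have h1 : ∃ᶠ n in atTop, up f (T x) - ε / 2 < nf f n (T x) :=
    frequently_lt_of_lt_limsup (h.bdd_below (T x)).isCoboundedUnder_le (by unfold up; linarith)
  have h2 : ∀ᶠ n in atTop, nf f n x < up f x + ε / 4 :=
    eventually_lt_of_limsup_lt (by unfold up; linarith) (h.bdd_above x)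
  obtain ⟨N0, hN0⟩ := exists_nat_gt (2 * C / (ε / 4))
  obtain ⟨N1, hN1⟩ := eventually_atTop.mp h2
  obtain ⟨n, hn, hn'⟩ := (frequently_atTop.mp h1) (N0 + N1 + 1)
  have h3 := hN1 (1 + n) (by omega)
  have h4 := h.sup 1 n le_rfl (by omega) x
  simp only [Function.iterate_one] at h4
  have h5 := h.bound 1 x
  simp only [Nat.cast_one, mul_one] at h5
  have hnpos : (0 : ℝ) < n := by
    have : 0 < n := by omega
    exact_mod_cast this
  have hN0' : (0 : ℝ) < (N0 : ℝ) := lt_of_le_of_lt (by positivity) hN0
  have hnN : (N0 : ℝ) + 1 ≤ n := by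
    have : N0 + 1 ≤ n := by omega
    exact_mod_cast this
  rw [div_lt_iff₀ (by positivity)] at hN0
  have hb := (abs_le.mp (h.nf_bound n (T x)))
  have hup := abs_le.mp (h.up_abs x)
  unfold nf at h3 hn' hb
  rw [div_lt_iff₀ (by push_cast; linarith)] at h3
  rw [lt_div_iff₀ hnpos] at hn'
  have h6 := (abs_le.mp h5).1
  push_cast at h3
  -- f n (T x) > n (up (Tx) - ε/2);  f(1+n) x < (1+n)(up x + ε/4)
  have h7 : (up f (T x) - ε / 2) * n - C < (up f x + ε / 4) * (1 + n) := by linarith
  have h8 : 2 * C + ε / 4 ≤ n * (ε / 4) := by nlinarith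
  by_contra hcon
  push Not at hcon
  have h9 : (up f x + ε) * n ≤ up f (T x) * n := mul_le_mul_of_nonneg_right hcon.le hnpos.le
  linarith

lemma integrable_of_abs_le {m : Measure B} [IsProbabilityMeasure m] {g : B → ℝ}
    (hg : Measurable g) {C : ℝ} (hb : ∀ x, |g x| ≤ C) : Integrable g m := by
  refine Integrable.mono' (integrable_const C) hg.aestronglyMeasurable ?_
  filter_upwards with x
  exact hb x

/-- the upper limit is invariant almost everywhere -/
lemma Super.up_inv {m : Measure B} [IsProbabilityMeasure m] (hT : MeasurePreserving T m m)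
    (h : Super T f C) : ∀ᵐ x ∂m, up f (T x) = up f x := by
  have hi : Integrable (up f) m := integrable_of_abs_le h.up_meas h.up_abs
  have hi' : Integrable (fun x => up f (T x)) m := hT.integrable_comp_of_integrable hi
  have h1 : ∫ x, up f (T x) ∂m = ∫ x, up f x ∂m := by
    have h3 := integral_map (μ := m) hT.measurable.aemeasurable
        (f := up f) h.up_meas.aestronglyMeasurable
    rw [hT.map_eq] at h3
    exact h3.symm
  have h2 : ∫ x, (up f x - up f (T x)) ∂m = 0 := by
    rw [integral_sub hi hi', h1, sub_self]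
  have h3 := (integral_eq_zero_iff_of_nonneg
    (fun x => by simpa using sub_nonneg.mpr (h.up_comp x)) (hi.sub hi')).mp h2
  filter_upwards [h3] with x hx
  have hx' : up f x - up f (T x) = 0 := hx
  linarith

lemma iter_inv {m : Measure B} [IsProbabilityMeasure m] (hT : MeasurePreserving T m m)
    (h : Super T f C) : ∀ᵐ x ∂m, ∀ n, up f (T^[n] x) = up f x := by
  have h1 : ∀ n : ℕ, ∀ᵐ x ∂m, up f (T (T^[n] x)) = up f (T^[n] x) := by
    intro n
    exact (hT.iterate n).quasiMeasurePreserving.ae (h.up_inv hT)
  rw [← ae_all_iff] at h1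
  filter_upwards [h1] with x hx n
  induction n with
  | zero => rfl
  | succ n ih =>
    rw [Function.iterate_succ_apply', hx n, ih]

/-- points where no good time occurs up to `M` -/
def Bad (f : ℕ → B → ℝ) (ε : ℝ) (M : ℕ) : Set B :=
  {x | ∀ n, 1 ≤ n → n ≤ M → f n x < n * (up f x - ε)}

lemma Super.bad_meas (h : Super T f C) (ε : ℝ) (M : ℕ) : MeasurableSet (Bad f ε M) := by
  have : Bad f ε M = ⋂ n : ℕ, {x | 1 ≤ n → n ≤ M → f n x < n * (up f x - ε)} := by
    ext x; simp [Bad]
  rw [this]
  refine MeasurableSet.iInter fun n => ?_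
  by_cases h1 : 1 ≤ n
  · by_cases h2 : n ≤ M
    · simp only [h1, h2, true_implies]
      exact measurableSet_lt (h.meas n) ((h.up_meas.sub_const ε).const_mul _)
    · simp [h2]
  · simp [h1]

lemma Super.bad_tendsto {m : Measure B} [IsProbabilityMeasure m]
    (h : Super T f C) {ε : ℝ} (hε : 0 < ε) :
    Tendsto (fun M => m.real (Bad f ε M)) atTop (𝓝 0) := by
  have h1 : Antitone (Bad f ε) := by
    intro a b hab x hx n hn hna
    exact hx n hn (hna.trans hab)
  have h2 : (⋂ M, Bad f ε M) = ∅ := by
    ext x
    simp only [mem_iInter, mem_empty_iff_false, iff_false, not_forall]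
    have h1 : ∃ᶠ n in atTop, up f x - ε < nf f n x :=
      frequently_lt_of_lt_limsup (h.bdd_below x).isCoboundedUnder_le (by unfold up; linarith)
    obtain ⟨n, hn, hn'⟩ := (frequently_atTop.mp h1) 1
    refine ⟨n, fun hx => ?_⟩
    have h3 := hx n hn le_rfl
    have hnpos : (0 : ℝ) < n := by exact_mod_cast hn
    unfold nf at hn'
    rw [lt_div_iff₀ hnpos] at hn'
    linarith
  have h3 := tendsto_measure_iInter_atTop (μ := m) (s := Bad f ε)
    (fun i => (h.bad_meas ε i).nullMeasurableSet) h1 ⟨0, measure_ne_top _ _⟩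
  rw [h2, measure_empty] at h3
  have h4 := (ENNReal.tendsto_toReal ENNReal.zero_ne_top).comp h3
  simpa [Measure.real, Function.comp_def] using h4

/-- the block decomposition inequality -/
lemma Super.block (h : Super T f C) (ε : ℝ) (hε : 0 < ε) (M : ℕ) (L : ℕ) :
    ∀ x, (∀ n, up f (T^[n] x) = up f x) →
      L * (up f x - ε) - 2 * C * (∑ k ∈ Finset.range L, (Bad f ε M).indicator (fun _ => (1 : ℝ)) (T^[k] x))
        - 2 * C * M ≤ f L x := by
  induction L using Nat.strong_induction_on with
  | _ L ih =>
  intro x hx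
  have hC := h.C_nonneg x
  have hup := abs_le.mp (h.up_abs x)
  have hS : 0 ≤ ∑ k ∈ Finset.range L, (Bad f ε M).indicator (fun _ => (1 : ℝ)) (T^[k] x) :=
    Finset.sum_nonneg fun k _ => indicator_nonneg (fun _ _ => zero_le_one) _
  rcases le_or_gt L M with hLM | hLM
  · have h1 := (abs_le.mp (h.bound L x)).1
    have hL : (L : ℝ) ≤ M := by exact_mod_cast hLM
    have hL0 : (0 : ℝ) ≤ L := Nat.cast_nonneg L
    nlinarith [mul_nonneg hC hS, mul_nonneg hC (sub_nonneg.mpr hL), mul_nonneg hC hL0,
      mul_nonneg hL0 (sub_nonneg.mpr hup.2), mul_nonneg hL0 hε.le]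
  · by_cases hbad : x ∈ Bad f ε M
    · -- a bad point: one step
      rcases Nat.lt_or_ge 1 L with hL1 | hL1
      · obtain ⟨K, rfl⟩ : ∃ K, L = 1 + K := ⟨L - 1, by omega⟩
        have h1 := ih K (by omega) (T x) (fun n => by
          have := hx (n + 1)
          rw [Function.iterate_succ_apply] at this
          rw [this]
          exact (hx 1).symm)
        have h2 := h.sup 1 K le_rfl (by omega) x
        have h3 := (abs_le.mp (h.bound 1 x)).1
        have h4 : up f (T x) = up f x := hx 1
        rw [h4] at h1
        have h5 : ∑ k ∈ Finset.range (1 + K), (Bad f ε M).indicator (fun _ => (1 : ℝ)) (T^[k] x)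
            = 1 + ∑ k ∈ Finset.range K, (Bad f ε M).indicator (fun _ => (1 : ℝ)) (T^[k] (T x)) := by
          rw [add_comm 1 K, Finset.sum_range_succ', add_comm]
          congr 1
          simp [hbad]
        rw [h5]
        simp only [Function.iterate_one, Nat.cast_one, mul_one] at h2 h3
        push_cast
        nlinarith
      · -- L ≤ 1, so M = 0 and L = 1
        have hL : L = 1 := by omega
        subst hL
        have h3 := (abs_le.mp (h.bound 1 x)).1
        have hM : M = 0 := by omega
        subst hM
        simp only [Nat.cast_one, mul_one, Finset.sum_range_one, Function.iterate_zero, id_eq,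
          Nat.cast_zero, mul_zero, sub_zero, one_mul] at h3 ⊢
        rw [indicator_of_mem hbad]
        linarith
    · -- a good point
      simp only [Bad, mem_ofPred_eq, not_forall, not_lt] at hbad
      obtain ⟨N, hN1, hNM, hN⟩ := hbad
      obtain ⟨K, rfl⟩ : ∃ K, L = N + K := ⟨L - N, by omega⟩
      have h1 := ih K (by omega) (T^[N] x) (fun n => by
          rw [← Function.iterate_add_apply, hx, hx])
      have h2 := h.sup N K hN1 (by omega) x
      rw [hx N] at h1
      have h5 : ∑ k ∈ Finset.range K, (Bad f ε M).indicator (fun _ => (1 : ℝ)) (T^[k] (T^[N] x))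
          ≤ ∑ k ∈ Finset.range (N + K), (Bad f ε M).indicator (fun _ => (1 : ℝ)) (T^[k] x) := by
        rw [Finset.sum_range_add]
        have h6 : ∀ k, T^[k] (T^[N] x) = T^[N + k] x := by
          intro k
          rw [← Function.iterate_add_apply, add_comm k N]
        simp only [h6]
        have h7 : 0 ≤ ∑ k ∈ Finset.range N, (Bad f ε M).indicator (fun _ => (1 : ℝ)) (T^[k] x) :=
          Finset.sum_nonneg fun k _ => indicator_nonneg (fun _ _ => zero_le_one) _
        linarith
      push_cast
      nlinarith

lemma integral_comp_iter {m : Measure B} [IsProbabilityMeasure m] (hT : MeasurePreserving T m m)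
    (g : B → ℝ) (hg : Measurable g) (k : ℕ) : ∫ x, g (T^[k] x) ∂m = ∫ x, g x ∂m := by
  have h3 := integral_map (μ := m) (hT.iterate k).measurable.aemeasurable
      (f := g) hg.aestronglyMeasurable
  rw [(hT.iterate k).map_eq] at h3
  exact h3.symm

/-- first half: the integral of the upper limit is at most any bound for the normalised means -/
lemma Super.int_up_le {m : Measure B} [IsProbabilityMeasure m] (hT : MeasurePreserving T m m)
    (h : Super T f C) (γ : ℝ) (hγ : ∀ n : ℕ, 1 ≤ n → ∫ x, f n x ∂m ≤ n * γ) :
    ∫ x, up f x ∂m ≤ γ := by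
  refine le_of_forall_pos_le_add fun ε hε => ?_
  obtain ⟨x₀⟩ : Nonempty B := by
    by_contra hne
    rw [not_nonempty_iff] at hne
    have := measure_univ (μ := m)
    rw [univ_eq_empty_iff.mpr hne, measure_empty] at this
    exact zero_ne_one this
  have hC := h.C_nonneg x₀
  have hb := (h.bad_tendsto (m := m) (ε := ε / 4) (by linarith))
  obtain ⟨M, hM⟩ := (hb.eventually (gt_mem_nhds (show (0 : ℝ) < ε / (8 * (C + 1)) by positivity))).exists
  obtain ⟨L0, hL0⟩ := exists_nat_gt (2 * C * M / (ε / 4))
  set L := L0 + 1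
  have hLpos : (0 : ℝ) < L := by positivity
  have hLL : 2 * C * M ≤ L * (ε / 4) := by
    rw [div_lt_iff₀ (by positivity)] at hL0
    have : (L0 : ℝ) ≤ L := by simp [L]
    nlinarith
  have hiU : Integrable (up f) m := integrable_of_abs_le h.up_meas h.up_abs
  have hif : Integrable (f L) m := integrable_of_abs_le (h.meas L) (h.bound L)
  have hind : ∀ k : ℕ, Integrable (fun x => (Bad f (ε / 4) M).indicator (fun _ => (1 : ℝ)) (T^[k] x)) m := by
    intro k
    refine integrable_of_abs_le (C := 1) ?_ ?_
    · exact (measurable_const.indicator (h.bad_meas _ _)).comp (hT.iterate k).measurable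
    · intro x
      by_cases hx : T^[k] x ∈ Bad f (ε / 4) M
      · rw [indicator_of_mem hx]; simp
      · rw [indicator_of_notMem hx]; simp
  have hsum : Integrable (fun x => ∑ k ∈ Finset.range L,
      (Bad f (ε / 4) M).indicator (fun _ => (1 : ℝ)) (T^[k] x)) m :=
    integrable_finsetSum _ fun k _ => hind k
  have hA : Integrable (fun x => (L : ℝ) * (up f x - ε / 4)) m :=
    (hiU.sub (integrable_const _)).const_mul _
  have hB : Integrable (fun x => 2 * C * (∑ k ∈ Finset.range L,
      (Bad f (ε / 4) M).indicator (fun _ => (1 : ℝ)) (T^[k] x))) m := hsum.const_mul _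
  have hAB : Integrable (fun x => (L : ℝ) * (up f x - ε / 4) - 2 * C * (∑ k ∈ Finset.range L,
      (Bad f (ε / 4) M).indicator (fun _ => (1 : ℝ)) (T^[k] x))) m := hA.sub hB
  have h1 : ∫ x, (L * (up f x - ε / 4) - 2 * C * (∑ k ∈ Finset.range L,
      (Bad f (ε / 4) M).indicator (fun _ => (1 : ℝ)) (T^[k] x)) - 2 * C * M) ∂m
      ≤ ∫ x, f L x ∂m := by
    refine integral_mono_ae ?_ hif ?_
    · exact hAB.sub (integrable_const _)
    · filter_upwards [iter_inv hT h] with x hx
      exact h.block (ε / 4) (by linarith) M L x hx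
  rw [integral_sub hAB (integrable_const _), integral_sub hA hB,
    integral_const_mul, integral_const_mul, integral_sub hiU (integrable_const _),
    integral_finsetSum _ fun k _ => hind k] at h1
  have h2 : ∀ k ∈ Finset.range L,
      ∫ x, (Bad f (ε / 4) M).indicator (fun _ => (1 : ℝ)) (T^[k] x) ∂m
        = m.real (Bad f (ε / 4) M) := by
    intro k _
    rw [integral_comp_iter hT _ (measurable_const.indicator (h.bad_meas _ _)),
      integral_indicator_const _ (h.bad_meas _ _)]
    simp
  rw [Finset.sum_congr rfl h2, Finset.sum_const, Finset.card_range, nsmul_eq_mul] at h1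
  simp only [integral_const, probReal_univ, smul_eq_mul, one_mul] at h1
  have h3 := hγ L (by omega)
  have h4 : 2 * C * m.real (Bad f (ε / 4) M) ≤ ε / 4 := by
    have h5 : m.real (Bad f (ε / 4) M) * (8 * (C + 1)) < ε := by
      rw [lt_div_iff₀ (by positivity)] at hM
      exact hM
    have h6 : 0 ≤ m.real (Bad f (ε / 4) M) := measureReal_nonneg
    nlinarith
  have h5 : (L : ℝ) * ∫ x, up f x ∂m ≤ L * (γ + ε) := by nlinarith
  exact le_of_mul_le_mul_left h5 hLpos

/-- comparison of `f n` with `f` at a multiple of `N` -/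
lemma Super.mono_bound (h : Super T f C) (a b : ℕ) (ha : 1 ≤ a) (hab : a ≤ b) (x : B) :
    f a x - C * (b - a) ≤ f b x := by
  rcases eq_or_lt_of_le hab with rfl | hlt
  · simp
  · obtain ⟨k, rfl⟩ : ∃ k, b = a + k := ⟨b - a, by omega⟩
    have h1 := h.sup a k ha (by omega) x
    have h2 := (abs_le.mp (h.bound k (T^[a] x))).1
    push_cast
    linarith

lemma Super.mult (h : Super T f C) (N : ℕ) (hN : 1 ≤ N) (k : ℕ) (x : B) :
    ∑ i ∈ Finset.range (k + 1), f N ((T^[N])^[i] x) ≤ f (N * (k + 1)) x := by
  induction k with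
  | zero => simp
  | succ k ih =>
    rw [Finset.sum_range_succ]
    have h1 := h.sup (N * (k + 1)) N (by nlinarith) hN x
    have h2 : T^[N * (k + 1)] x = (T^[N])^[k + 1] x := by
      rw [Function.iterate_mul]
    rw [h2] at h1
    have h3 : N * (k + 1 + 1) = N * (k + 1) + N := by ring
    rw [h3]
    linarith

/-- second half: the integral of the lower limit is at least every normalised mean -/
lemma Super.le_int_lo {m : Measure B} [IsProbabilityMeasure m] (hT : MeasurePreserving T m m)
    (h : Super T f C) (N : ℕ) (hN : 1 ≤ N) :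
    (∫ x, f N x ∂m) ≤ N * ∫ x, lo f x ∂m := by
  have hNpos : (0 : ℝ) < N := by exact_mod_cast hN
  have hTN := hT.iterate N
  have hbk := Pool.Agent.H165R3.BPE.birkhoff hTN (f N) (h.meas N) (C * N) (h.bound N)
  have hifN : Integrable (f N) m := integrable_of_abs_le (h.meas N) (h.bound N)
  have hle : (m[f N | MeasurableSpace.invariants (T^[N])]) ≤ᵐ[m] fun x => N * lo f x := by
    filter_upwards [hbk] with x hx
    set e := (m[f N | MeasurableSpace.invariants (T^[N])]) x
    -- enough: for all ε, eventually nf n x ≥ e/N - ε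
    have key : ∀ ε > 0, e / N - ε ≤ lo f x := by
      intro ε hε
      have hC := h.C_nonneg x
      refine le_liminf_of_le (h.bdd_above x).isCoboundedUnder_ge ?_
      have h1 : ∀ᶠ k : ℕ in atTop, e - ε / 4 * N < (k : ℝ)⁻¹ * ∑ i ∈ Finset.range k,
          f N ((T^[N])^[i] x) := hx.eventually (lt_mem_nhds (by
            have : 0 < ε / 4 * N := by positivity
            linarith))
      obtain ⟨K1, hK1⟩ := eventually_atTop.mp h1
      obtain ⟨K2, hK2⟩ := exists_nat_gt (8 * (C + 1) / ε)
      filter_upwards [eventually_ge_atTop (N * (K1 + K2 + 2))] with n hn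
      -- write n = N k + r
      set k := n / N with hk
      have hkn : N * k ≤ n := Nat.mul_div_le n N
      have hnk : n < N * k + N := by
        have := Nat.lt_mul_div_succ n (show 0 < N by omega)
        rw [hk]
        nlinarith
      have hk1 : K1 + K2 + 2 ≤ k := by
        rw [hk]
        rw [Nat.le_div_iff_mul_le (by omega)]
        nlinarith
      obtain ⟨k', hk'⟩ : ∃ k', k = k' + 1 := ⟨k - 1, by omega⟩
      have h2 := h.mult N hN k' x
      rw [← hk'] at h2
      have h3 := h.mono_bound (N * k) n (by nlinarith) hkn x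
      have h4 := hK1 k (by omega)
      have hkpos : (0 : ℝ) < k := by
        have : 0 < k := by omega
        exact_mod_cast this
      rw [lt_inv_mul_iff₀ hkpos] at h4
      have hnpos : (0 : ℝ) < n := by
        have : 0 < n := by nlinarith
        exact_mod_cast this
      unfold nf
      rw [le_div_iff₀ hnpos]
      have hkK : (K2 : ℝ) ≤ k := by
        have : K2 ≤ k := by omega
        exact_mod_cast this
      have h5 : 8 * (C + 1) ≤ k * ε := by
        rw [div_lt_iff₀ hε] at hK2
        nlinarith
      have hnr : (n : ℝ) < N * k + N := by exact_mod_cast hnk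
      have hnr' : (N : ℝ) * k ≤ n := by exact_mod_cast hkn
      have he : |e| ≤ C * N := by
        -- e is a limit of averages bounded by C N
        have hlim := hx.abs
        refine le_of_tendsto hlim ?_
        filter_upwards [eventually_gt_atTop 0] with j hj
        have hjpos : (0 : ℝ) < j := by exact_mod_cast hj
        rw [abs_mul, abs_of_pos (inv_pos.mpr hjpos), inv_mul_le_iff₀ hjpos]
        refine (Finset.abs_sum_le_sum_abs _ _).trans ?_
        refine (Finset.sum_le_card_nsmul _ _ (C * N) (fun i _ => h.bound N _)).trans ?_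
        rw [Finset.card_range, nsmul_eq_mul]
      have he' := abs_le.mp he
      push_cast at h3
      -- goal: (e / N - ε) * n ≤ f n x
      have hd : e / N * n ≤ e * k + C * N := by
        have h6 : e / N * n - e * k = e / N * (n - N * k) := by
          field_simp
        have h7 : e / N ≤ C := by
          rw [div_le_iff₀ hNpos]; exact he'.2
        have h8 : -C ≤ e / N := by
          rw [le_div_iff₀ hNpos]; linarith [he'.1]
        have h9 : 0 ≤ (n : ℝ) - N * k := by linarith
        have h10 : (n : ℝ) - N * k ≤ N := by linarith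
        nlinarith
      have h11 : C * ((n : ℝ) - N * k) ≤ C * N := by
        apply mul_le_mul_of_nonneg_left _ hC
        linarith
      have h12 : (k : ℝ) * (e - ε / 4 * N) ≤ f n x + C * N := by linarith
      have h13 : 2 * C * N ≤ ε / 4 * (N * k) := by nlinarith
      have h14 : ε * (N * k) ≤ ε * n := mul_le_mul_of_nonneg_left hnr' hε.le
      have h15 : 0 ≤ ε * (N * k) := by positivity
      nlinarith
    have : e / N ≤ lo f x := by
      refine le_of_forall_pos_le_add fun ε hε => ?_
      have := key ε hε
      linarith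
    rw [div_le_iff₀ hNpos] at this
    linarith
  have hilo : Integrable (lo f) m := integrable_of_abs_le h.lo_meas h.lo_abs
  have h1 := integral_mono_ae integrable_condExp (hilo.const_mul (N : ℝ)) hle
  rw [integral_condExp (MeasurableSpace.invariants_le _), integral_const_mul] at h1
  exact h1

/-- **The superadditive ergodic theorem** for linearly bounded superadditive processes. -/
theorem kingman {m : Measure B} [IsProbabilityMeasure m] (hT : MeasurePreserving T m m)
    (h : Super T f C) : ∀ᵐ x ∂m, ∃ l : ℝ, Tendsto (fun n : ℕ => f n x / n) atTop (𝓝 l) := by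
  have h1 : ∫ x, up f x ∂m ≤ ∫ x, lo f x ∂m :=
    h.int_up_le hT _ fun n hn => h.le_int_lo hT n hn
  have hiU : Integrable (up f) m := integrable_of_abs_le h.up_meas h.up_abs
  have hiL : Integrable (lo f) m := integrable_of_abs_le h.lo_meas h.lo_abs
  have h2 : ∫ x, (up f x - lo f x) ∂m = 0 := by
    rw [integral_sub hiU hiL]
    have := integral_mono hiL hiU (fun x => h.lo_le_up x)
    linarith
  have h3 := (integral_eq_zero_iff_of_nonneg
    (fun x => by simpa using sub_nonneg.mpr (h.lo_le_up x)) (hiU.sub hiL)).mp h2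
  filter_upwards [h3] with x hx
  have hx' : up f x - lo f x = 0 := hx
  refine ⟨up f x, ?_⟩
  have h4 : lo f x = up f x := by linarith
  exact tendsto_of_liminf_eq_limsup h4 rfl (h.bdd_above x) (h.bdd_below x)

end Pool.Agent.J6H73.PG
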