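import Mathlib
import Pool.Agent.J6H73.PG.Kingman

/-!
# One-player games: convergence of the normalised values
-/

set_option autoImplicit false

namespace Pool.Agent.J6H73.PG

open Set Filter Topology MeasureTheory

variable {V A Ω : Type*} [AddCommGroup V]

/-- displacement of a word of actions -/
def disp (q : A → V) (l : List A) : V := (l.map q).sum

/-- payoff of a word of actions from `z` -/
def pay (q : A → V) (g : V → A → ℝ) : V → List A → ℝ
  | _, [] => 0
  | z, a :: l => g z a + pay q g (z + q a) l

lemma disp_append (q : A → V) (l l' : List A) : disp q (l ++ l') = disp q l + disp q l' := by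
  simp [disp]

lemma pay_append (q : A → V) (g : V → A → ℝ) (l l' : List A) (z : V) :
    pay q g z (l ++ l') = pay q g z l + pay q g (z + disp q l) l' := by
  induction l generalizing z with
  | nil => simp [pay, disp]
  | cons a l ih =>
    simp only [List.cons_append, pay, ih]
    simp only [disp, List.map_cons, List.sum_cons]
    rw [add_assoc z (q a), add_assoc]

lemma pay_abs (q : A → V) (g : V → A → ℝ) (C : ℝ) (hg : ∀ z a, |g z a| ≤ C) (l : List A) (z : V) :
    |pay q g z l| ≤ C * l.length := by
  induction l generalizing z with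
  | nil => simp [pay]
  | cons a l ih =>
    simp only [pay, List.length_cons]
    push_cast
    refine (abs_add_le _ _).trans ?_
    have := ih (z + q a)
    have := hg z a
    linarith

lemma pay_shift (q : A → V) (g : V → A → ℝ) (w : V) (l : List A) (z : V) :
    pay q (fun z a => g (w + z) a) z l = pay q g (w + z) l := by
  induction l generalizing z with
  | nil => simp [pay]
  | cons a l ih =>
    simp only [pay, ih]
    rw [add_assoc]

lemma disp_perm (q : A → V) {l l' : List A} (h : l.Perm l') : disp q l = disp q l' :=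
  (h.map q).sum_eq

/-- words of length `n` -/
abbrev Word (A : Type*) (n : ℕ) := {l : List A // l.length = n}

/-- words of length `n` with displacement `x` -/
abbrev WordTo (q : A → V) (n : ℕ) (x : V) := {l : List A // l.length = n ∧ disp q l = x}

/-- the best total payoff over `n` steps -/
noncomputable def best (q : A → V) (g : V → A → ℝ) (n : ℕ) : ℝ := ⨆ l : Word A n, pay q g 0 l.1

/-- the best total payoff over `n` steps which lead to `x` -/
noncomputable def bestTo (q : A → V) (g : V → A → ℝ) (n : ℕ) (x : V) : ℝ :=
  ⨆ l : WordTo q n x, pay q g 0 l.1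

section bounds

variable (q : A → V) (g : V → A → ℝ) {C : ℝ} (hg : ∀ z a, |g z a| ≤ C)

include hg in
lemma bdd_best (n : ℕ) : BddAbove (range fun l : Word A n => pay q g 0 l.1) := by
  refine ⟨C * n, ?_⟩
  rintro _ ⟨l, rfl⟩
  have := (abs_le.mp (pay_abs q g C hg l.1 0)).2
  rwa [l.2] at this

include hg in
lemma bdd_bestTo (n : ℕ) (x : V) : BddAbove (range fun l : WordTo q n x => pay q g 0 l.1) := by
  refine ⟨C * n, ?_⟩
  rintro _ ⟨l, rfl⟩
  have := (abs_le.mp (pay_abs q g C hg l.1 0)).2
  rwa [l.2.1] at this

include hg in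
lemma le_best {n : ℕ} (l : List A) (hl : l.length = n) : pay q g 0 l ≤ best q g n :=
  le_ciSup (bdd_best q g hg n) ⟨l, hl⟩

include hg in
lemma le_bestTo {n : ℕ} {x : V} (l : List A) (hl : l.length = n) (hx : disp q l = x) :
    pay q g 0 l ≤ bestTo q g n x :=
  le_ciSup (bdd_bestTo q g hg n x) ⟨l, hl, hx⟩

include hg in
lemma abs_best [Nonempty A] (n : ℕ) : |best q g n| ≤ C * n := by
  obtain ⟨a⟩ := ‹Nonempty A›
  have : Nonempty (Word A n) := ⟨⟨List.replicate n a, by simp⟩⟩
  rw [abs_le]
  constructor
  · have h1 := le_best q g hg (List.replicate n a) (by simp : _ = n)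
    have h2 := (abs_le.mp (pay_abs q g C hg (List.replicate n a) 0)).1
    rw [List.length_replicate] at h2
    linarith
  · refine ciSup_le fun l => ?_
    have := (abs_le.mp (pay_abs q g C hg l.1 0)).2
    rwa [l.2] at this

include hg in
lemma abs_bestTo (n : ℕ) (x : V) [Nonempty (WordTo q n x)] : |bestTo q g n x| ≤ C * n := by
  obtain ⟨⟨l, hl, hx⟩⟩ := ‹Nonempty (WordTo q n x)›
  rw [abs_le]
  constructor
  · have h1 := le_bestTo q g hg l hl hx
    have h2 := (abs_le.mp (pay_abs q g C hg l 0)).1
    rw [hl] at h2
    linarith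
  · have : Nonempty (WordTo q n x) := ⟨⟨l, hl, hx⟩⟩
    refine ciSup_le fun l => ?_
    have := (abs_le.mp (pay_abs q g C hg l.1 0)).2
    rwa [l.2.1] at this

include hg in
/-- a word to `x` of length `a ≤ b` can be prolonged -/
lemma bestTo_le_best [Nonempty A] (a b : ℕ) (hab : a ≤ b) (x : V) [Nonempty (WordTo q a x)] :
    bestTo q g a x - C * (b - a) ≤ best q g b := by
  obtain ⟨c⟩ := ‹Nonempty A›
  rw [sub_le_iff_le_add]
  refine ciSup_le fun l => ?_
  have h1 := le_best q g hg (l.1 ++ List.replicate (b - a) c) (n := b) (by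
    rw [List.length_append, l.2.1, List.length_replicate]; omega)
  rw [pay_append] at h1
  have h2 := (abs_le.mp (pay_abs q g C hg (List.replicate (b - a) c) (0 + disp q l.1))).1
  rw [List.length_replicate] at h2
  push_cast [Nat.cast_sub hab] at h2
  linarith

end bounds

/-- a fixed word with `c a` letters `a` for each `a` -/
noncomputable def cword [Fintype A] (c : A → ℕ) : List A :=
  (Finset.univ : Finset A).toList.flatMap fun a => List.replicate (c a) a

lemma cword_length [Fintype A] (c : A → ℕ) : (cword c).length = ∑ a, c a := by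
  unfold cword
  rw [List.length_flatMap]
  simp only [List.length_replicate]
  rw [Finset.sum_map_toList]

lemma sum_map_replicate {M : Type*} [AddCommMonoid M] (q : A → M) (L : List A) (c : A → ℕ) :
    ((L.flatMap fun a => List.replicate (c a) a).map q).sum = (L.map fun a => c a • q a).sum := by
  induction L with
  | nil => simp
  | cons a L ih => simp [List.flatMap_cons, ih]

lemma cword_disp [Fintype A] (q : A → V) (c : A → ℕ) : disp q (cword c) = ∑ a, c a • q a := by
  unfold cword disp
  rw [sum_map_replicate, Finset.sum_map_toList]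

/-- the displacement of a word is determined by the letter counts -/
lemma disp_count [Fintype A] [DecidableEq A] (q : A → V) (l : List A) :
    disp q l = ∑ a, l.count a • q a := by
  induction l with
  | nil => simp [disp]
  | cons b l ih =>
    have : disp q (b :: l) = q b + disp q l := by simp [disp]
    rw [this, ih]
    simp only [List.count_cons]
    simp only [add_smul, Finset.sum_add_distrib]
    rw [add_comm]
    congr 1
    rw [Finset.sum_eq_single b]
    · simp
    · intro a _ hab
      have : (b == a) = false := by simpa using fun h => hab h.symm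
      simp [this]
    · simp

lemma length_count [Fintype A] [DecidableEq A] (l : List A) : l.length = ∑ a, l.count a := by
  induction l with
  | nil => simp
  | cons b l ih =>
    rw [List.length_cons, ih]
    simp only [List.count_cons]
    rw [Finset.sum_add_distrib]
    congr 1
    rw [Finset.sum_eq_single b]
    · simp
    · intro a _ hab
      have : (b == a) = false := by simpa using fun h => hab h.symm
      simp [this]
    · simp

lemma nonempty_wordTo [Fintype A] (q : A → V) (b : A → ℕ) (m : ℕ) :
    Nonempty (WordTo q (m * ∑ a, b a) (m • ∑ a, b a • q a)) := by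
  refine ⟨⟨cword (fun a => m * b a), ?_, ?_⟩⟩
  · rw [cword_length, Finset.mul_sum]
  · rw [cword_disp, Finset.smul_sum]
    simp only [mul_smul]

/-- every word of length `n` is at most as good as a slightly longer word of rational direction,
up to the trivial error -/
lemma exists_direction [Fintype A] [Nonempty A] (q : A → V) (g : V → A → ℝ) {C : ℝ}
    (hg : ∀ z a, |g z a| ≤ C) (n K m : ℕ) (hK : Fintype.card A < K)
    (hm : n ≤ m * (K - Fintype.card A)) (l : List A) (hl : l.length = n) (hm0 : 0 < m) :
    ∃ b : A → ℕ, (∑ a, b a) = K ∧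
      pay q g 0 l ≤ bestTo q g (m * K) (m • ∑ a, b a • q a) + C * (m * K - n) := by
  classical
  -- b' a = ⌈count a / m⌉
  set b' : A → ℕ := fun a => (l.count a + (m - 1)) / m with hb'
  have h1 : ∀ a, l.count a ≤ m * b' a := by
    intro a
    have := Nat.lt_mul_div_succ (l.count a + (m - 1)) hm0
    simp only [hb']
    have h2 : m * ((l.count a + (m - 1)) / m + 1) = m * ((l.count a + (m - 1)) / m) + m := by ring
    omega
  have h2 : ∀ a, m * b' a ≤ l.count a + (m - 1) := fun a => Nat.mul_div_le _ _
  have h3 : m * ∑ a, b' a ≤ n + Fintype.card A * (m - 1) := by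
    rw [Finset.mul_sum]
    refine (Finset.sum_le_sum fun a _ => h2 a).trans ?_
    rw [Finset.sum_add_distrib, ← length_count, hl]
    simp
  have h4 : ∑ a, b' a ≤ K := by
    by_contra hcon
    push Not at hcon
    have h5 : m * (K + 1) ≤ m * ∑ a, b' a := Nat.mul_le_mul_left m hcon
    have h6 : m * (K - Fintype.card A) + m * Fintype.card A = m * K := by
      rw [← Nat.mul_add]; congr 1; omega
    have h7 : Fintype.card A * (m - 1) ≤ m * Fintype.card A := by
      rw [mul_comm]; exact Nat.mul_le_mul_right _ (Nat.sub_le _ _)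
    have h8 : m * (K + 1) = m * K + m := by ring
    omega
  obtain ⟨a0⟩ := ‹Nonempty A›
  set b : A → ℕ := Function.update b' a0 (b' a0 + (K - ∑ a, b' a)) with hb
  have hbb : ∀ a, b' a ≤ b a := by
    intro a
    simp only [hb]
    by_cases h : a = a0
    · subst h; simp
    · simp [h]
  have hbs : ∑ a, b a = K := by
    have : ∑ a, b a = ∑ a, b' a + (K - ∑ a, b' a) := by
      have h5 : ∀ a, b a = b' a + if a = a0 then (K - ∑ a, b' a) else 0 := by
        intro a
        simp only [hb]
        by_cases h : a = a0
        · subst h; simp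
        · simp [h]
      rw [Finset.sum_congr rfl fun a _ => h5 a, Finset.sum_add_distrib]
      simp
    omega
  refine ⟨b, hbs, ?_⟩
  set c : A → ℕ := fun a => m * b a - l.count a with hc
  have hcs : ∀ a, l.count a + c a = m * b a := by
    intro a
    have h5 := h1 a
    have h6 := Nat.mul_le_mul_left m (hbb a)
    simp only [hc]
    omega
  have hlen : (l ++ cword c).length = m * K := by
    rw [List.length_append, cword_length, length_count l, ← Finset.sum_add_distrib,
      Finset.sum_congr rfl fun a _ => hcs a, ← Finset.mul_sum, hbs]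
  have hdisp : disp q (l ++ cword c) = m • ∑ a, b a • q a := by
    rw [disp_append, cword_disp, disp_count, ← Finset.sum_add_distrib, Finset.smul_sum]
    refine Finset.sum_congr rfl fun a _ => ?_
    rw [← add_smul, hcs, mul_smul]
  have h5 := le_bestTo q g hg _ hlen hdisp
  rw [pay_append] at h5
  have h6 := (abs_le.mp (pay_abs q g C hg (cword c) (0 + disp q l))).1
  have h7 : ((cword c).length : ℝ) = m * K - n := by
    rw [List.length_append, hl] at hlen
    have : (n : ℝ) + ((cword c).length : ℝ) = m * K := by exact_mod_cast hlen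
    linarith
  rw [h7] at h6
  linarith

/-- deterministic part: if along all rational directions the best payoffs have a rate, then the
normalised values converge -/
theorem det [Fintype A] [Nonempty A] (q : A → V) (g : V → A → ℝ) {C : ℝ}
    (hg : ∀ z a, |g z a| ≤ C) (α : (A → ℕ) → ℝ)
    (hα : ∀ b : A → ℕ, 0 < ∑ a, b a →
      Tendsto (fun m : ℕ => bestTo q g (m * ∑ a, b a) (m • ∑ a, b a • q a) / m) atTop (𝓝 (α b))) :
    ∃ v : ℝ, Tendsto (fun n : ℕ => best q g n / n) atTop (𝓝 v) := by
  classical
  have hC : 0 ≤ C := by
    obtain ⟨a0⟩ := ‹Nonempty A›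
    exact (abs_nonneg _).trans (hg 0 a0)
  set u : ℕ → ℝ := fun n => best q g n / n with hu
  have hub : ∀ n, |u n| ≤ C := by
    intro n
    simp only [hu]
    rcases Nat.eq_zero_or_pos n with rfl | hn
    · simpa using hC
    · have hn' : (0 : ℝ) < n := by exact_mod_cast hn
      rw [abs_div, abs_of_pos hn', div_le_iff₀ hn']
      exact abs_best q g hg n
  have hba : IsBoundedUnder (· ≤ ·) atTop u :=
    ⟨C, by rw [eventually_map]; exact Eventually.of_forall fun n => (abs_le.mp (hub n)).2⟩
  have hbb : IsBoundedUnder (· ≥ ·) atTop u :=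
    ⟨-C, by rw [eventually_map]; exact Eventually.of_forall fun n => (abs_le.mp (hub n)).1⟩
  -- lower bound
  have hlow : ∀ b : A → ℕ, 0 < ∑ a, b a → α b / (∑ a, b a : ℕ) ≤ liminf u atTop := by
    intro b hb
    set K := ∑ a, b a with hK
    have hKpos : (0 : ℝ) < (K : ℝ) := by exact_mod_cast hb
    refine le_of_forall_pos_le_add fun ε hε => ?_
    rw [← sub_le_iff_le_add]
    refine le_liminf_of_le hba.isCoboundedUnder_ge ?_
    have h1 : ∀ᶠ m : ℕ in atTop, α b - ε / 4 * K <
        bestTo q g (m * K) (m • ∑ a, b a • q a) / m :=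
      (hα b hb).eventually (lt_mem_nhds (by
        have : 0 < ε / 4 * (K : ℝ) := by positivity
        linarith))
    obtain ⟨M1, hM1⟩ := eventually_atTop.mp h1
    obtain ⟨M2, hM2⟩ := exists_nat_gt (8 * (C + 1) / ε)
    filter_upwards [eventually_ge_atTop (K * (M1 + M2 + 2))] with n hn
    set m := n / K with hm
    have hmn : K * m ≤ n := Nat.mul_div_le n K
    have hnm : n < K * m + K := by
      have := Nat.lt_mul_div_succ n hb
      rw [hm]
      linarith [this, (by ring : K * (n / K + 1) = K * (n / K) + K)]
    have hm1 : M1 + M2 + 2 ≤ m := by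
      rw [hm, Nat.le_div_iff_mul_le hb, mul_comm]
      exact hn
    have h2 := hM1 m (by omega)
    have hmpos : (0 : ℝ) < m := by
      have : 0 < m := by omega
      exact_mod_cast this
    rw [lt_div_iff₀ hmpos] at h2
    have := nonempty_wordTo q b m
    rw [← hK] at this
    have h3 := bestTo_le_best q g hg (m * K) n (by rw [mul_comm]; exact hmn)
      (m • ∑ a, b a • q a)
    have hnpos : (0 : ℝ) < n := by
      have : 0 < n := by
        have : 0 < K * (M1 + M2 + 2) := by positivity
        omega
      exact_mod_cast this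
    simp only [hu]
    rw [le_div_iff₀ hnpos]
    have hnr : (n : ℝ) < K * m + K := by exact_mod_cast hnm
    have hnr' : (K : ℝ) * m ≤ n := by exact_mod_cast hmn
    have hmM : (M2 : ℝ) ≤ m := by
      have : M2 ≤ m := by omega
      exact_mod_cast this
    have h5 : 8 * (C + 1) ≤ m * ε := by
      rw [div_lt_iff₀ hε] at hM2
      nlinarith
    have hαb : |α b| ≤ C * K := by
      refine le_of_tendsto (hα b hb).abs ?_
      filter_upwards [eventually_gt_atTop 0] with j hj
      have hjpos : (0 : ℝ) < j := by exact_mod_cast hj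
      rw [abs_div, abs_of_pos hjpos, div_le_iff₀ hjpos]
      have := nonempty_wordTo q b j
      have := abs_bestTo q g hg (j * ∑ a, b a) (j • ∑ a, b a • q a)
      refine this.trans_eq ?_
      rw [← hK]
      push_cast
      ring
    have hαb' := abs_le.mp hαb
    push_cast at h3
    have hd : α b / K * n ≤ α b * m + C * K := by
      have h7 : α b / K ≤ C := by
        rw [div_le_iff₀ hKpos]; exact hαb'.2
      have h6 : α b / K * n - α b * m = α b / K * (n - K * m) := by
        field_simp
      have h9 : 0 ≤ (n : ℝ) - K * m := by linarith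
      have h10 : (n : ℝ) - K * m ≤ K := by linarith
      nlinarith
    have h11 : C * ((n : ℝ) - m * K) ≤ C * K := by
      apply mul_le_mul_of_nonneg_left _ hC
      linarith
    have h13 : 2 * C * K ≤ ε / 4 * (K * m) := by nlinarith
    have h14 : ε * (K * m) ≤ ε * n := mul_le_mul_of_nonneg_left hnr' hε.le
    have h15 : 0 ≤ ε * (K * m) := by positivity
    nlinarith
  -- upper bound
  have hup : ∀ K : ℕ, Fintype.card A < K →
      limsup u atTop ≤ liminf u atTop + 2 * C * Fintype.card A / (K - Fintype.card A : ℕ) := by
    intro K hK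
    set k := Fintype.card A with hk
    set D := K - k with hD
    have hDpos : 0 < D := by omega
    have hDr : (0 : ℝ) < D := by exact_mod_cast hDpos
    have hKD : (K : ℝ) = D + k := by
      have : K = D + k := by omega
      exact_mod_cast this
    set Λ := liminf u atTop with hΛ
    have hΛC : |Λ| ≤ C := by
      rw [abs_le]
      constructor
      · exact le_liminf_of_le hba.isCoboundedUnder_ge
          (Eventually.of_forall fun n => (abs_le.mp (hub n)).1)
      · exact (liminf_le_limsup hba hbb).trans (limsup_le_of_le hbb.isCoboundedUnder_le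
          (Eventually.of_forall fun n => (abs_le.mp (hub n)).2))
    -- finitely many directions
    set F : Finset (A → ℕ) := (Fintype.piFinset fun _ : A => Finset.range (K + 1)).filter
      fun b => ∑ a, b a = K with hF
    refine le_of_forall_pos_le_add fun ε hε => ?_
    have h1 : ∀ b ∈ F, ∀ᶠ m : ℕ in atTop,
        bestTo q g (m * K) (m • ∑ a, b a • q a) ≤ m * (K * Λ + ε / 4 * D) := by
      intro b hb
      rw [hF, Finset.mem_filter] at hb
      have hb2 : ∑ a, b a = K := hb.2
      have h2 := hα b (by omega)
      have h3 := hlow b (by omega)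
      rw [hb2] at h2 h3
      have hKpos : (0 : ℝ) < K := by
        have : 0 < K := by omega
        exact_mod_cast this
      rw [div_le_iff₀ hKpos] at h3
      have h4 : α b < K * Λ + ε / 4 * D := by
        have : 0 < ε / 4 * (D : ℝ) := by positivity
        linarith
      filter_upwards [h2.eventually (gt_mem_nhds h4), eventually_gt_atTop 0] with m hm hm0
      have hmpos : (0 : ℝ) < m := by exact_mod_cast hm0
      rw [div_lt_iff₀ hmpos] at hm
      linarith
    have h2 : ∀ᶠ m : ℕ in atTop, ∀ b ∈ F,
        bestTo q g (m * K) (m • ∑ a, b a • q a) ≤ m * (K * Λ + ε / 4 * D) :=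
      (Finset.eventually_all F).2 h1
    obtain ⟨M1, hM1⟩ := eventually_atTop.mp h2
    obtain ⟨M2, hM2⟩ := exists_nat_gt (4 * (2 * C * K + ε / 4 * D + 1) / ε)
    refine limsup_le_of_le hbb.isCoboundedUnder_le ?_
    filter_upwards [eventually_ge_atTop (D * (M1 + M2 + 2))] with n hn
    have hnpos' : 0 < n := by
      have : 0 < D * (M1 + M2 + 2) := by positivity
      omega
    have hnpos : (0 : ℝ) < n := by exact_mod_cast hnpos'
    set m := n / D + 1 with hm
    have hm0 : 0 < m := Nat.succ_pos _
    have hnm : n ≤ m * D := by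
      have := Nat.lt_mul_div_succ n hDpos
      rw [mul_comm]
      exact this.le
    have hmn : m * D ≤ n + D := by
      have := Nat.div_mul_le_self n D
      rw [hm, add_mul, one_mul]
      omega
    have hmM : M1 ≤ m := by
      have : M1 + M2 + 2 ≤ n / D := by
        rw [Nat.le_div_iff_mul_le hDpos, mul_comm]
        exact hn
      omega
    have hnM2 : (M2 : ℝ) ≤ n := by
      have : M2 ≤ n := by nlinarith
      exact_mod_cast this
    have h3 : best q g n ≤ m * (K * Λ + ε / 4 * D) + C * (m * K - n) := by
      have : Nonempty (Word A n) := by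
        obtain ⟨a0⟩ := ‹Nonempty A›
        exact ⟨⟨List.replicate n a0, by simp⟩⟩
      refine ciSup_le fun l => ?_
      obtain ⟨b, hb, hb'⟩ := exists_direction q g hg n K m hK hnm l.1 l.2 hm0
      have hbF : b ∈ F := by
        rw [hF, Finset.mem_filter, Fintype.mem_piFinset]
        refine ⟨fun a => ?_, hb⟩
        rw [Finset.mem_range]
        have : b a ≤ ∑ a, b a := Finset.single_le_sum (fun _ _ => Nat.zero_le _) (Finset.mem_univ a)
        omega
      have := hM1 m hmM b hbF
      linarith
    simp only [hu]
    rw [div_le_iff₀ hnpos]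
    have hmr : (m : ℝ) * D ≤ n + D := by exact_mod_cast hmn
    have hmr' : (n : ℝ) ≤ m * D := by exact_mod_cast hnm
    have hΛ' := abs_le.mp hΛC
    have h5 : 4 * (2 * C * K + ε / 4 * D + 1) ≤ ε * n := by
      rw [div_lt_iff₀ hε] at hM2
      nlinarith
    -- m K Λ = m D Λ + m k Λ;  m D ≤ n + D
    have hkr : (0 : ℝ) ≤ k := Nat.cast_nonneg k
    set s : ℝ := (m : ℝ) * D - n with hs
    have hs0 : 0 ≤ s := by linarith
    have hs1 : s ≤ D := by linarith
    have hm' : (m : ℝ) = (n + s) / D := by
      rw [eq_div_iff hDr.ne']; linarith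
    have h6 : (m : ℝ) * k ≤ (n / D) * k + k := by
      have : (m : ℝ) ≤ n / D + 1 := by
        rw [hm', add_div]
        have : s / D ≤ 1 := by rw [div_le_one hDr]; exact hs1
        linarith
      nlinarith
    have e1 : (m : ℝ) * (K * Λ + ε / 4 * D) = (n + s) * Λ + (m * k) * Λ + ε / 4 * (n + s) := by
      rw [hKD, hs]; ring
    have e2 : C * ((m : ℝ) * K - n) = C * (m * k) + C * s := by
      rw [hKD, hs]; ring
    rw [e1, e2] at h3
    have h7 : (m * k : ℝ) * Λ ≤ C * (m * k) := by
      rw [mul_comm]
      exact mul_le_mul_of_nonneg_right hΛ'.2 (by positivity)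
    have h8 : s * Λ ≤ C * s := by
      rw [mul_comm]
      exact mul_le_mul_of_nonneg_right hΛ'.2 hs0
    have h9 : C * (m * k : ℝ) ≤ C * ((n / D) * k + k) := mul_le_mul_of_nonneg_left h6 hC
    have h10 : C * s ≤ C * D := mul_le_mul_of_nonneg_left hs1 hC
    have h11 : ε / 4 * s ≤ ε / 4 * D := mul_le_mul_of_nonneg_left hs1 (by positivity)
    have e3 : (Λ + 2 * C * k / D + ε) * n = Λ * n + 2 * (C * ((n / D) * k)) + ε * n := by
      field_simp
    rw [e3]
    have h12 : 2 * C * K = 2 * C * D + 2 * C * k := by rw [hKD]; ring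
    have h13 : 0 ≤ C * (K : ℝ) := mul_nonneg hC (Nat.cast_nonneg K)
    have h14 : 0 ≤ ε * (D : ℝ) := mul_nonneg hε.le hDr.le
    linarith
  have hle : limsup u atTop ≤ liminf u atTop := by
    refine ge_of_tendsto' (f := fun j : ℕ => liminf u atTop +
      2 * C * Fintype.card A / ((Fintype.card A + 1 + j - Fintype.card A : ℕ) : ℝ)) (x := atTop) ?_
      (fun j => hup (Fintype.card A + 1 + j) (by omega))
    have h1 : ∀ j : ℕ, (Fintype.card A + 1 + j - Fintype.card A : ℕ) = j + 1 := fun j => by omega
    simp only [h1]
    have h2 : Tendsto (fun j : ℕ => 2 * C * (Fintype.card A : ℝ) / ((j + 1 : ℕ) : ℝ)) atTop (𝓝 0) := by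
      have h3 : Tendsto (fun j : ℕ => ((j + 1 : ℕ) : ℝ)) atTop atTop :=
        tendsto_natCast_atTop_atTop.comp (tendsto_add_atTop_nat 1)
      exact tendsto_const_nhds.div_atTop h3
    simpa using tendsto_const_nhds.add h2
  exact ⟨limsup u atTop, tendsto_of_le_liminf_of_limsup_le hle le_rfl hba hbb⟩

end Pool.Agent.J6H73.PG
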