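import Mathlib
import Pool.Agent.J6H73.PG.Core

/-!
# One-player games: almost sure convergence
-/

set_option autoImplicit false

namespace Pool.Agent.J6H73.PG

open Set Filter Topology MeasureTheory

variable {V A Ω : Type*} [AddCommGroup V] [MeasurableSpace Ω]

lemma pay_meas (q : A → V) (g : Ω → V → A → ℝ) (hg : ∀ z a, Measurable fun ω => g ω z a)
    (l : List A) (z : V) : Measurable fun ω => pay q (g ω) z l := by
  induction l generalizing z with
  | nil => simp only [pay]; exact measurable_const
  | cons a l ih =>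
    simp only [pay]
    exact (hg z a).add (ih _)

omit [MeasurableSpace Ω] in
lemma iter_shift (τ : V → Ω → Ω) (hadd : ∀ z z' ω, τ (z + z') ω = τ z (τ z' ω)) (x : V) (m : ℕ)
    (hm : 1 ≤ m) (ω : Ω) : (τ x)^[m] ω = τ (m • x) ω := by
  induction m, hm using Nat.le_induction generalizing ω with
  | base => simp
  | succ m hm ih =>
    rw [Function.iterate_succ_apply, ih, add_smul, one_smul, hadd]

/-- almost sure convergence of the normalised values at the origin, bounded payoffs -/
theorem conv_zero [Finite A] [Nonempty A] (P : Measure Ω) [IsProbabilityMeasure P]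
    (τ : V → Ω → Ω) (hτ : ∀ z, MeasurePreserving (τ z) P P)
    (hadd : ∀ z z' ω, τ (z + z') ω = τ z (τ z' ω))
    (q : A → V) (g : Ω → V → A → ℝ) (hg : ∀ z a, Measurable fun ω => g ω z a) (C : ℝ)
    (hC : ∀ ω z a, |g ω z a| ≤ C) (hst : ∀ ω z z' a, g (τ z ω) z' a = g ω (z + z') a) :
    ∀ᵐ ω ∂P, ∃ v : ℝ, Tendsto (fun n : ℕ => best q (g ω) n / n) atTop (𝓝 v) := by
  have := Fintype.ofFinite A
  have key : ∀ b : A → ℕ, ∀ᵐ ω ∂P, ∃ v : ℝ, 0 < ∑ a, b a →
      Tendsto (fun m : ℕ => bestTo q (g ω) (m * ∑ a, b a) (m • ∑ a, b a • q a) / m)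
        atTop (𝓝 v) := by
    intro b
    by_cases hb : 0 < ∑ a, b a
    swap
    · exact Eventually.of_forall fun ω => ⟨0, fun h => absurd h hb⟩
    set K := ∑ a, b a with hK
    set x : V := ∑ a, b a • q a with hx
    have hne : ∀ m : ℕ, Nonempty (WordTo q (m * K) (m • x)) := fun m => nonempty_wordTo q b m
    have hS : Super (τ x) (fun m ω => bestTo q (g ω) (m * K) (m • x)) (C * K) := by
      refine ⟨fun n => ?_, fun n ω => ?_, fun m k hm hk ω => ?_⟩
      · unfold bestTo
        have : Countable (WordTo q (n * K) (n • x)) := by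
          have : Countable A := Finite.to_countable
          infer_instance
        exact Measurable.iSup fun l => pay_meas q g hg l.1 0
      · have := hne n
        have h1 := abs_bestTo q (g ω) (hC ω) (n * K) (n • x)
        refine h1.trans_eq ?_
        push_cast
        ring
      · rw [iter_shift τ hadd x m hm ω]
        have h1 := hne m
        have h2 := hne k
        -- combine
        have h3 : ∀ l : WordTo q (m * K) (m • x), ∀ l' : WordTo q (k * K) (k • x),
            pay q (g ω) 0 l.1 + pay q (g (τ (m • x) ω)) 0 l'.1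
              ≤ bestTo q (g ω) ((m + k) * K) ((m + k) • x) := by
          intro l l'
          have h4 : (fun z' a => g ω (m • x + z') a) = g (τ (m • x) ω) := by
            funext z' a
            rw [hst]
          rw [← h4, pay_shift, add_zero]
          have h5 := pay_append q (g ω) l.1 l'.1 0
          rw [l.2.2, zero_add] at h5
          rw [← h5]
          refine le_bestTo q (g ω) (hC ω) _ ?_ ?_
          · rw [List.length_append, l.2.1, l'.2.1, add_mul]
          · rw [disp_append, l.2.2, l'.2.2, add_smul]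
        have h6 : ∀ l : WordTo q (m * K) (m • x),
            bestTo q (g (τ (m • x) ω)) (k * K) (k • x) ≤
              bestTo q (g ω) ((m + k) * K) ((m + k) • x) - pay q (g ω) 0 l.1 := by
          intro l
          refine ciSup_le fun l' => ?_
          have := h3 l l'
          linarith
        have h7 : bestTo q (g ω) (m * K) (m • x) ≤
            bestTo q (g ω) ((m + k) * K) ((m + k) • x)
              - bestTo q (g (τ (m • x) ω)) (k * K) (k • x) := by
          refine ciSup_le fun l => ?_
          have := h6 l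
          linarith
        linarith
    filter_upwards [kingman (hτ x) hS] with ω hω
    obtain ⟨v, hv⟩ := hω
    exact ⟨v, fun _ => hv⟩
  rw [← ae_all_iff] at key
  filter_upwards [key] with ω hω
  choose α hα using hω
  exact det q (g ω) (hC ω) α hα

/-- almost sure convergence, for payoffs which are bounded almost surely -/
theorem conv [Finite A] [Nonempty A] [Countable V] (P : Measure Ω) [IsProbabilityMeasure P]
    (τ : V → Ω → Ω) (hτ : ∀ z, MeasurePreserving (τ z) P P)
    (hadd : ∀ z z' ω, τ (z + z') ω = τ z (τ z' ω))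
    (q : A → V) (g : Ω → V → A → ℝ) (hg : ∀ z a, Measurable fun ω => g ω z a) (C : ℝ)
    (hC : ∀ z a, ∀ᵐ ω ∂P, |g ω z a| ≤ C) (hst : ∀ ω z z' a, g (τ z ω) z' a = g ω (z + z') a)
    (z : V) :
    ∀ᵐ ω ∂P, ∃ v : ℝ, Tendsto (fun n : ℕ => best q (fun z' a => g ω (z + z') a) n / n)
      atTop (𝓝 v) := by
  have := Fintype.ofFinite A
  set g' : Ω → V → A → ℝ := fun ω z a => max (-|C|) (min |C| (g ω z a)) with hg'
  have h1 : ∀ᵐ ω ∂P, ∃ v : ℝ, Tendsto (fun n : ℕ => best q (g' ω) n / n) atTop (𝓝 v) := by
    refine conv_zero P τ hτ hadd q g' ?_ |C| ?_ ?_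
    · intro z a
      exact measurable_const.max (measurable_const.min (hg z a))
    · intro ω z a
      simp only [hg']
      rw [abs_le]
      exact ⟨le_max_left _ _, max_le (by linarith [abs_nonneg C]) (min_le_left _ _)⟩
    · intro ω z z' a
      simp only [hg', hst]
  have h2 : ∀ᵐ ω ∂P, ∃ v : ℝ, Tendsto (fun n : ℕ => best q (g' (τ z ω)) n / n) atTop (𝓝 v) :=
    (hτ z).quasiMeasurePreserving.ae h1
  have h3 : ∀ᵐ ω ∂P, ∀ z a, |g ω z a| ≤ C := by
    rw [ae_all_iff]
    intro z
    rw [ae_all_iff]
    exact hC z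
  filter_upwards [h2, h3] with ω hω hb
  obtain ⟨v, hv⟩ := hω
  refine ⟨v, ?_⟩
  have h4 : g' (τ z ω) = fun z' a => g ω (z + z') a := by
    funext z' a
    simp only [hg', hst]
    have h5 := hb (z + z') a
    have h6 := abs_le.mp (h5.trans (le_abs_self C))
    rw [min_eq_right h6.2, max_eq_right h6.1]
  rwa [h4] at hv

lemma pay_snoc (q : A → V) (g : V → A → ℝ) (l : List A) (a : A) (z : V) :
    pay q g z (l ++ [a]) = pay q g z l + g (z + disp q l) a := by
  rw [pay_append]
  simp [pay]

lemma pay_neg (q : A → V) (g : V → A → ℝ) (l : List A) (z : V) :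
    pay q (fun z a => - g z a) z l = - pay q g z l := by
  induction l generalizing z with
  | nil => simp [pay]
  | cons a l ih =>
    simp only [pay, ih]
    ring

/-- the supremum over strategies equals the supremum over words -/
lemma sup_eq {S : Type*} [Nonempty S] [Nonempty A] (q : A → V) (g : V → A → ℝ) {C : ℝ}
    (hg : ∀ z a, |g z a| ≤ C) (n : ℕ) (F : S → ℝ)
    (h1 : ∀ s, ∃ l : Word A n, F s = pay q g 0 l.1 / n)
    (h2 : ∀ l : Word A n, ∃ s, F s = pay q g 0 l.1 / n) : ⨆ s, F s = best q g n / n := by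
  have hne : Nonempty (Word A n) := by
    obtain ⟨a⟩ := ‹Nonempty A›
    exact ⟨⟨List.replicate n a, by simp⟩⟩
  have hub : ∀ s, F s ≤ best q g n / n := by
    intro s
    obtain ⟨l, hl⟩ := h1 s
    rw [hl]
    exact div_le_div_of_nonneg_right (le_best q g hg l.1 l.2) (Nat.cast_nonneg n)
  refine le_antisymm (ciSup_le hub) ?_
  have hbdd : BddAbove (range F) := ⟨best q g n / n, by rintro _ ⟨s, rfl⟩; exact hub s⟩
  rcases Nat.eq_zero_or_pos n with rfl | hn
  · obtain ⟨l⟩ := hne
    obtain ⟨s, hs⟩ := h2 l
    have := le_ciSup hbdd s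
    rw [hs] at this
    simpa using this
  · have hn' : (0 : ℝ) < n := by exact_mod_cast hn
    rw [div_le_iff₀ hn']
    refine ciSup_le fun l => ?_
    obtain ⟨s, hs⟩ := h2 l
    have := le_ciSup hbdd s
    rw [hs, div_le_iff₀ hn'] at this
    exact this

lemma iInf_eq_neg {S : Type*} [Nonempty S] (F : S → ℝ) (hb : BddBelow (range F)) :
    ⨅ s, F s = - ⨆ s, - F s := by
  have hb' : BddAbove (range fun s => - F s) := by
    obtain ⟨c, hc⟩ := hb
    refine ⟨-c, ?_⟩
    rintro _ ⟨s, rfl⟩
    have := hc ⟨s, rfl⟩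
    simpa using this
  refine le_antisymm ?_ ?_
  · rw [le_neg]
    refine ciSup_le fun s => ?_
    have := ciInf_le hb s
    linarith
  · refine le_ciInf fun s => ?_
    have := le_ciSup hb' s
    linarith

end Pool.Agent.J6H73.PG
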